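import Pool.Agent.Work.MP_499dc6_lc.CD.Stmts2

/-!
# Constant depth circuits for the permanent: circuits with gates of bounded support

Gates: a polynomial of degree at most `e` plus a linear combination of any number of earlier
gates; a product of powers of any number of earlier gates; an arbitrary polynomial in any number
of earlier gates all of whose monomials involve at most `r` of them.
-/

namespace Pool.Agent.Work.MP_499dc6_lc.CD3

open MvPolynomial Pool.Agent.Work.MP_499dc6_lc.CD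

/-- Circuits with `s` gates and gates of bounded support. -/
def IsCkt {K σ : Type} [Field K] {s : ℕ} (e r : ℕ) (F : Fin s → MvPolynomial σ K)
    (d : Fin s → ℕ) : Prop :=
  ∀ i, (∃ (l : MvPolynomial σ K) (c : Fin s → K), l.totalDegree ≤ e ∧
      (∀ j, c j ≠ 0 → j < i ∧ d j ≤ d i) ∧ F i = l + ∑ j, C (c j) * F j) ∨
    (∃ k : Fin s → ℕ, (∀ j, k j ≠ 0 → j < i ∧ d j < d i) ∧ F i = ∏ j, F j ^ k j) ∨
    (∃ Q : MvPolynomial (Fin s) K, (∀ m ∈ Q.support, m.support.card ≤ r ∧
      ∀ j ∈ m.support, j < i ∧ d j < d i) ∧ F i = aeval F Q)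

/-- Gates of bounded support. -/
def S_JuntaBB : Prop :=
  ∀ (Y Z : Type) [Fintype Y] [Fintype Z] (K : Type) [Field K] (al be : ℝ) (s r : ℕ)
    (v : Fin s → MvPolynomial (Y ⊕ Z) K) (Q : MvPolynomial (Fin s) K) (lam : ℝ) (k : ℕ),
    0 < lam → 1 ≤ k → (∀ m ∈ Q.support, m.support.card ≤ r ∧ ∀ j ∈ m.support, ∀ i, 1 ≤ i →
      BB al be (homogeneousComponent i (v j)) (Real.exp (-(lam * i)))) →
    BB al be (homogeneousComponent k (aeval v Q))
      ((s : ℝ) ^ r * Real.exp (96 * r / lam ^ 2 - lam / 2 * k))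

/-- Upper bound for all gates of a circuit. -/
def S_Ckt : Prop :=
  ∀ (Y Z : Type) [Fintype Y] [Fintype Z] (K : Type) [Field K] [CharZero K] (al G : ℝ)
    (s D e r : ℕ) (F : Fin s → MvPolynomial (Y ⊕ Z) K) (d : Fin s → ℕ), 10 ≤ al →
    IsCkt e r F d → (∀ i, d i ≤ D) → (∀ i, F i ≠ 0 → constantCoeff (F i) ≠ 0) →
    G = Real.log (s + 1) + e + r + 1 → 2 * ((1601 * G) ^ (9 ^ (2 * D))) ^ 2 ≤ Real.exp (al / 2) →
    ∀ i, ∀ k, 1 ≤ k → BB al (√2 * al) (homogeneousComponent k (F i))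
      (Real.exp ((rd G (2 * D)).1 - (rd G (2 * D)).2 * k))

/-- Substitution of polynomials of degree at most `e'` into a circuit. -/
def S_CktSubst : Prop :=
  ∀ (σ τ : Type) (K : Type) [Field K] (s e e' r : ℕ) (F : Fin s → MvPolynomial σ K)
    (d : Fin s → ℕ) (θ : σ → MvPolynomial τ K), IsCkt e r F d →
    (∀ i, (θ i).totalDegree ≤ e') → IsCkt (e * e') r (fun i => aeval θ (F i)) d

end Pool.Agent.Work.MP_499dc6_lc.CD3
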