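import Pool.Agent.Work.MP_499dc6_lc.Bd.B07
import Pool.Agent.Work.MP_499dc6_lc.Bd.B08

/-!
# Constant depth circuits with gates of bounded support: final assembly
-/

namespace Pool.Agent.Work.MP_499dc6_lc.CD3

open MvPolynomial Pool.Agent.Work.MP_499dc6_lc.CD

theorem upper (hPM : S_PermWalk) (hPW : S_PWhom) (hHom : S_BiHom)
    (hCk : S_Ckt) (hCS : S_CktSubst) (hTr : S_Transl) (hTT : S_TransTop)
    (k : Type) [Field k] [CharZero k] (M Δ s e r m n : ℕ) (z0 : Fin n)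
    (F : Fin s → MvPolynomial (Fin M × Fin M) (LaurentSeries k)) (d : Fin s → ℕ)
    (R : MvPolynomial (Fin M × Fin M) (PowerSeries k))
    (hF : IsCkt e r F d) (hd : ∀ i, d i ≤ Δ) (i0 : Fin s)
    (hi0 : F i0 = MvPolynomial.map (algebraMap (PowerSeries k) (LaurentSeries k))
      (permP (PowerSeries k) M + C PowerSeries.X * R))
    (hm : 2 ≤ m) (hM : (m - 1) * n + 1 ≤ M) (G : ℝ)
    (hG : G = Real.log (s + 1) + ((e * 3 : ℕ) : ℝ) + r + 1) (hal : 10 ≤ alp n)
    (hcond : 2 * ((1601 * G) ^ (9 ^ (2 * Δ))) ^ 2 ≤ Real.exp (alp n / 2)) :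
    ∃ R' : MvPolynomial (VV m n) (PowerSeries k),
      BB (alp n) (√2 * alp n) (MvPolynomial.map (algebraMap (PowerSeries k) (LaurentSeries k))
        (PW (PowerSeries k) m n z0 + C PowerSeries.X * R'))
        (Real.exp ((rd G (2 * Δ)).1 - (rd G (2 * Δ)).2 * ((aa m + m : ℕ) : ℝ))) := by
  set φ := algebraMap (PowerSeries k) (LaurentSeries k) with hφ
  obtain ⟨A, hA, hperm⟩ := hPM (MvPolynomial (VV m n) (PowerSeries k)) m n M z0
    (lab (PowerSeries k) m n) hm hM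
  rw [lab_sum] at hperm
  let g1 : Fin M × Fin M → MvPolynomial (VV m n) (PowerSeries k) := fun p => A p.1 p.2
  let θ1 : Fin M × Fin M → MvPolynomial (VV m n) (LaurentSeries k) :=
    fun p => MvPolynomial.map φ (g1 p)
  obtain ⟨x, hx⟩ := hTr (VV m n) k s (fun i => aeval θ1 (F i))
  let trP : VV m n → MvPolynomial (VV m n) (PowerSeries k) :=
    fun j => X j + C (PowerSeries.C (x j))
  let tr : VV m n → MvPolynomial (VV m n) (LaurentSeries k) :=
    fun j => X j + C (φ (PowerSeries.C (x j)))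
  have htr : tr = fun j => MvPolynomial.map φ (trP j) := by
    funext j
    simp [tr, trP]
  let θ2 : Fin M × Fin M → MvPolynomial (VV m n) (LaurentSeries k) := fun p => aeval tr (θ1 p)
  have hcomp : ∀ f : MvPolynomial (Fin M × Fin M) (LaurentSeries k),
      aeval θ2 f = aeval tr (aeval θ1 f) := by
    intro f
    exact (comp_aeval_apply θ1 (aeval tr : MvPolynomial (VV m n) (LaurentSeries k) →ₐ[LaurentSeries k] _) f).symm
  have hdeg : ∀ p, (θ2 p).totalDegree ≤ 3 := by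
    intro p
    rcases hA p.1 p.2 with h | h | ⟨t, u, v, ht, h⟩
    · have : θ2 p = 0 := by simp [θ2, θ1, g1, h]
      rw [this]; simp
    · have : θ2 p = 1 := by simp [θ2, θ1, g1, h]
      rw [this]; simp
    · have : θ2 p = aeval tr (MvPolynomial.map φ (lab (PowerSeries k) m n t u v)) := by
        simp [θ2, θ1, g1, h]
      rw [this]
      exact totalDegree_lab m n x t u v
  have hck2 := hCS _ _ _ s e 3 r F d θ2 hF hdeg
  have hcc : ∀ i, aeval θ2 (F i) ≠ 0 → constantCoeff (aeval θ2 (F i)) ≠ 0 := by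
    intro i hi
    rw [hcomp] at hi ⊢
    apply hx
    intro h0
    apply hi
    rw [h0, map_zero]
  have hBB := @hCk _ _ _ _ (LaurentSeries k) _ (charZero_laurent k) (alp n) G s Δ (e * 3) r _ d hal hck2 hd hcc hG hcond i0 (aa m + m) (by omega)
  -- the top component
  have h1 : aeval θ2 (F i0) = MvPolynomial.map φ (aeval trP (aeval g1
      (permP (PowerSeries k) M + C PowerSeries.X * R))) := by
    rw [hcomp, hi0, htr]
    rw [show θ1 = fun p => MvPolynomial.map φ (g1 p) from rfl]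
    rw [aeval_map_map, aeval_map_map]
  have h2 : aeval g1 (permP (PowerSeries k) M) = PW (PowerSeries k) m n z0 := by
    rw [← hperm]
    unfold permP
    have := map_permanent' (aeval g1 : MvPolynomial (Fin M × Fin M) (PowerSeries k) →ₐ[PowerSeries k] MvPolynomial (VV m n) (PowerSeries k)).toRingHom
      (Matrix.of fun i j => (X (i, j) : MvPolynomial (Fin M × Fin M) (PowerSeries k)))
    simp only [AlgHom.toRingHom_eq_coe, RingHom.coe_coe, Matrix.of_apply, aeval_X] at this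
    rw [this]
    rfl
  have hPWh : (PW (PowerSeries k) m n z0).IsHomogeneous (aa m + m) :=
    hHom _ _ _ _ _ _ (hPW (PowerSeries k) m n z0)
  have h3 : homogeneousComponent (aa m + m) (aeval trP (PW (PowerSeries k) m n z0)) =
      PW (PowerSeries k) m n z0 := hTT _ _ _ _ _ hPWh
  refine ⟨homogeneousComponent (aa m + m) (aeval trP (aeval g1 R)), ?_⟩
  have h4 : homogeneousComponent (aa m + m) (aeval θ2 (F i0)) =
      MvPolynomial.map φ (PW (PowerSeries k) m n z0 + C PowerSeries.X *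
        homogeneousComponent (aa m + m) (aeval trP (aeval g1 R))) := by
    rw [h1, hc_map, top_gen g1 trP (permP (PowerSeries k) M) R (PW (PowerSeries k) m n z0)
      PowerSeries.X (aa m + m) h2 h3]
  rw [← h4]
  exact hBB

theorem main_ineq (hPM : S_PermWalk) (hHard : S_Hard) (hPW : S_PWhom) (hHom : S_BiHom)
    (hRL : S_RankLow) (hRk : S_BBrank) (hG2 : S_Grow2) (hCk : S_Ckt) (hCS : S_CktSubst)
    (hTr : S_Transl) (hTT : S_TransTop) (hRd : S_RdBound)
    (k : Type) [Field k] [CharZero k] (M Δ s e r m : ℕ)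
    (F : Fin s → MvPolynomial (Fin M × Fin M) (LaurentSeries k)) (d : Fin s → ℕ)
    (R : MvPolynomial (Fin M × Fin M) (PowerSeries k))
    (hF : IsCkt e r F d) (hd : ∀ i, d i ≤ Δ) (i0 : Fin s)
    (hi0 : F i0 = MvPolynomial.map (algebraMap (PowerSeries k) (LaurentSeries k))
      (permP (PowerSeries k) M + C PowerSeries.X * R))
    (hm : 30000 ≤ m) (hM : (m - 1) * m ^ 10 + 1 ≤ M) (G : ℝ)
    (hG : G = Real.log (s + 1) + ((e * 3 : ℕ) : ℝ) + r + 1) :
    (m : ℝ) < ((1601 * G) ^ (9 ^ (2 * Δ))) ^ 3 := by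
  by_contra hcon
  push Not at hcon
  obtain ⟨n, hn⟩ : ∃ n, n = m ^ 10 := ⟨_, rfl⟩
  rw [← hn] at hM
  have hm1 : 1 ≤ m := by omega
  have hm2 : 2 ≤ m := by omega
  have hmR : (30000 : ℝ) ≤ m := by exact_mod_cast hm
  have hnm : 10 * m ≤ n := by
    rw [hn]
    calc 10 * m ≤ m ^ 9 * m := by
          apply Nat.mul_le_mul_right
          calc 10 ≤ m ^ 1 := by rw [pow_one]; omega
            _ ≤ m ^ 9 := Nat.pow_le_pow_right (by omega) (by norm_num)
      _ = m ^ 10 := by ring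
  have hn1 : 1 ≤ n := by omega
  have hnR : (1 : ℝ) ≤ n := by exact_mod_cast hn1
  obtain ⟨B, hB⟩ : ∃ B : ℝ, B = (1601 * G) ^ (9 ^ (2 * Δ)) := ⟨_, rfl⟩
  rw [← hB] at hcon
  have hG1 : 1 ≤ G := by
    rw [hG]
    have h1 : 0 ≤ Real.log ((s : ℝ) + 1) := Real.log_nonneg (by
      have : (0 : ℝ) ≤ s := by positivity
      linarith)
    have h2 : (0 : ℝ) ≤ ((e * 3 : ℕ) : ℝ) := by positivity
    have h3 : (0 : ℝ) ≤ (r : ℝ) := by positivity
    linarith
  have hB1 : 1 ≤ B := by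
    rw [hB]
    apply one_le_pow₀
    linarith
  obtain ⟨halp, hlogm⟩ := alp_ge hm
  rw [← hn] at halp
  have hal : 10 ≤ alp n := by linarith
  have hexp : (m : ℝ) ^ 3 ≤ Real.exp (alp n / 2) := by
    have h1 : (m : ℝ) ^ 3 = Real.exp (3 * Real.log m) := by
      rw [mul_comm, ← Real.rpow_def_of_pos (by linarith)]
      norm_num
    rw [h1]
    apply Real.exp_le_exp.mpr
    linarith
  have hcond : 2 * B ^ 2 ≤ Real.exp (alp n / 2) := by
    refine le_trans ?_ hexp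
    have h1 : B ^ 2 ≤ B ^ 3 := pow_le_pow_right₀ hB1 (by norm_num)
    nlinarith [sq_nonneg (m : ℝ)]
  rw [hB] at hcond
  obtain ⟨R', hBB⟩ := upper hPM hPW hHom hCk hCS hTr hTT k M Δ s e r m n ⟨0, by omega⟩ F d R hF hd
    i0 hi0 hm2 hM G hG hal hcond
  obtain ⟨-, hlm0, -, hsg, hlm⟩ := hRd G (2 * Δ) hG1
  rw [← hB] at hsg hlm
  -- the two rank bounds
  have hpow : 10 * (m : ℝ) ^ 2 ≤ (n : ℝ) ^ (1 - 1 / √2) := by
    have hs2 := sqrt2_bounds
    have h1 : (29 / 100 : ℝ) ≤ 1 - 1 / √2 := by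
      have : 1 / √2 ≤ 71 / 100 := by
        rw [div_le_iff₀ (by positivity)]
        nlinarith [hs2.1]
      linarith
    calc 10 * (m : ℝ) ^ 2 ≤ (m : ℝ) ^ (29 / 10 : ℝ) := by
          rw [show (29 / 10 : ℝ) = (2 : ℕ) + 9 / 10 by norm_num, Real.rpow_add (by linarith),
            Real.rpow_natCast, mul_comm]
          apply mul_le_mul_of_nonneg_left _ (by positivity)
          have h2 : (10 : ℝ) ≤ (m : ℝ) ^ (1 / 2 : ℝ) := by
            rw [← Real.sqrt_eq_rpow]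
            apply Real.le_sqrt_of_sq_le
            linarith
          refine h2.trans ?_
          apply Real.rpow_le_rpow_of_exponent_le (by linarith) (by norm_num)
      _ = (n : ℝ) ^ (29 / 100 : ℝ) := by
          rw [hn]; push_cast
          rw [← Real.rpow_natCast, ← Real.rpow_mul (by positivity)]
          norm_num
      _ ≤ (n : ℝ) ^ (1 - 1 / √2) := Real.rpow_le_rpow_of_exponent_le hnR h1
  have hne : Nonempty (Fin (aa m) × Fin n × Fin n) := by
    have := aa_pos hm1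
    exact ⟨(⟨0, by omega⟩, ⟨0, by omega⟩, ⟨0, by omega⟩)⟩
  have hne2 : Nonempty (Fin m × Fin n × Fin n) :=
    ⟨(⟨0, by omega⟩, ⟨0, by omega⟩, ⟨0, by omega⟩)⟩
  obtain ⟨I, hI1, hI2, ri, ci, hsub, hcard⟩ := hHard (PowerSeries k) m n (LL m n) (m * n)
    ⟨0, by omega⟩ hm1 hn1 (cond_rY hm2 hnm) (cond_rZ hm2 hnm) hpow
  have hlow := @hRL _ _ _ _ _ _ k _ _ R' _ _ _ _ I hI1 hI2 ri ci hsub
  have hcY : Fintype.card (Fin (aa m) × Fin n × Fin n) = aa m * n * n := by
    simp [Fintype.card_prod, Fintype.card_fin, mul_assoc]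
  have hcZ : Fintype.card (Fin m × Fin n × Fin n) = m * n * n := by
    simp [Fintype.card_prod, Fintype.card_fin, mul_assoc]
  have hupp := hRk _ _ (LaurentSeries k) (alp n) (√2 * alp n) _ _ (LL m n) (m * n) (aa m) m
    (by have := aa_pos hm1; omega)
    (by
      have := exp_cond1 hm2 hnm
      rw [hcY]; push_cast; exact this)
    (by
      have := cond_be (m := m) (n := n)
      rw [hcZ, mul_assoc]; push_cast at this ⊢; exact this) hBB
  rw [hcY, hcZ] at hupp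
  refine num_contra hG2 m n hm hn B (rd G (2 * Δ)).1 (rd G (2 * Δ)).2 hB1 hcon hsg hlm0 hlm ?_
  refine hcard.trans ((Nat.cast_le.mpr hlow).trans (hupp.trans (le_of_eq ?_)))
  push_cast
  ring

/-- The bound for every `M`. -/
theorem main_final (hPM : S_PermWalk) (hHard : S_Hard) (hPW : S_PWhom) (hHom : S_BiHom)
    (hRL : S_RankLow) (hRk : S_BBrank) (hG2 : S_Grow2) (hCk : S_Ckt) (hCS : S_CktSubst)
    (hTr : S_Transl) (hTT : S_TransTop) (hRd : S_RdBound)
    (k : Type) [Field k] [CharZero k] (M Δ s e r : ℕ) (hs : 1 ≤ s)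
    (F : Fin s → MvPolynomial (Fin M × Fin M) (LaurentSeries k)) (d : Fin s → ℕ)
    (R : MvPolynomial (Fin M × Fin M) (PowerSeries k))
    (hF : IsCkt e r F d) (hd : ∀ i, d i ≤ Δ) (i0 : Fin s)
    (hi0 : F i0 = MvPolynomial.map (algebraMap (PowerSeries k) (LaurentSeries k))
      (permP (PowerSeries k) M + C PowerSeries.X * R)) :
    (M : ℝ) ≤ (10 ^ 4 * (Real.log (s + 1) + e + r)) ^ (33 * 81 ^ Δ) := by
  obtain ⟨G, hG⟩ : ∃ G, G = Real.log (s + 1) + ((e * 3 : ℕ) : ℝ) + r + 1 := ⟨_, rfl⟩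
  have hsR : (1 : ℝ) ≤ s := by exact_mod_cast hs
  have hlog : (69 / 100 : ℝ) ≤ Real.log ((s : ℝ) + 1) := by
    have h1 : Real.log 2 ≤ Real.log ((s : ℝ) + 1) := Real.log_le_log (by norm_num) (by linarith)
    have h2 := Real.log_two_gt_d9
    linarith
  have he0 : (0 : ℝ) ≤ e := by positivity
  have hr0 : (0 : ℝ) ≤ r := by positivity
  have hG1 : 1 ≤ G := by
    rw [hG]
    have h2 : (0 : ℝ) ≤ ((e * 3 : ℕ) : ℝ) := by positivity
    linarith
  have hGX : 3202 * G ≤ 10 ^ 4 * (Real.log (s + 1) + e + r) := by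
    rw [hG]; push_cast
    linarith
  have hq : (1 : ℕ) ≤ 81 ^ Δ := Nat.one_le_pow _ _ (by norm_num)
  -- the integer `m`
  obtain ⟨m, hm⟩ : ∃ m : ℕ, m = ⌊(M : ℝ) ^ ((1 : ℝ) / 11)⌋₊ := ⟨_, rfl⟩
  have hMp : (0 : ℝ) ≤ (M : ℝ) ^ ((1 : ℝ) / 11) := by positivity
  have hm1 : (m : ℝ) ≤ (M : ℝ) ^ ((1 : ℝ) / 11) := by rw [hm]; exact Nat.floor_le hMp
  have hm2 : (M : ℝ) ^ ((1 : ℝ) / 11) < m + 1 := by rw [hm]; exact Nat.lt_floor_add_one _
  have hM11 : ((M : ℝ) ^ ((1 : ℝ) / 11)) ^ 11 = M := by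
    rw [← Real.rpow_natCast, ← Real.rpow_mul (by positivity)]
    norm_num
  have hMle : (m : ℝ) ^ 11 ≤ M := by
    rw [← hM11]; exact pow_le_pow_left₀ (by positivity) hm1 11
  have hMlt : (M : ℝ) ≤ ((m : ℝ) + 1) ^ 11 := by
    rw [← hM11]; exact pow_le_pow_left₀ hMp hm2.le 11
  have hMle' : m ^ 11 ≤ M := by exact_mod_cast hMle
  have hkey : (m : ℝ) + 1 ≤ (3202 * G) ^ (3 * 81 ^ Δ) := by
    by_cases h3 : 30000 ≤ m
    · have hMm : (m - 1) * m ^ 10 + 1 ≤ M := by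
        refine le_trans ?_ hMle'
        obtain ⟨q, rfl⟩ : ∃ q, m = q + 1 := ⟨m - 1, by omega⟩
        have : (q + 1) ^ 11 = q * (q + 1) ^ 10 + (q + 1) ^ 10 := by ring
        rw [this, Nat.add_sub_cancel]
        have : 1 ≤ (q + 1) ^ 10 := Nat.one_le_pow _ _ (by omega)
        omega
      have h4 := main_ineq hPM hHard hPW hHom hRL hRk hG2 hCk hCS hTr hTT hRd k M Δ s e r m F d R
        hF hd i0 hi0 h3 hMm G hG
      have h5 : (9 : ℕ) ^ (2 * Δ) = 81 ^ Δ := by rw [pow_mul]; norm_num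
      rw [h5, ← pow_mul, mul_comm (81 ^ Δ) 3] at h4
      have h6 : (1 : ℝ) ≤ (1601 * G) ^ (3 * 81 ^ Δ) := one_le_pow₀ (by linarith)
      have h7 : (3202 * G) ^ (3 * 81 ^ Δ) = 2 ^ (3 * 81 ^ Δ) * (1601 * G) ^ (3 * 81 ^ Δ) := by
        rw [← mul_pow]; congr 1; ring
      have h8 : (2 : ℝ) ≤ 2 ^ (3 * 81 ^ Δ) := by
        calc (2 : ℝ) = 2 ^ 1 := by norm_num
          _ ≤ 2 ^ (3 * 81 ^ Δ) := pow_le_pow_right₀ (by norm_num) (by omega)
      rw [h7]
      nlinarith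
    · have h4 : (m : ℝ) + 1 ≤ 30000 := by
        have : m + 1 ≤ 30000 := by omega
        exact_mod_cast this
      refine h4.trans ?_
      calc (30000 : ℝ) ≤ 3202 ^ 3 := by norm_num
        _ ≤ (3202 * G) ^ 3 := pow_le_pow_left₀ (by norm_num) (by linarith) 3
        _ ≤ (3202 * G) ^ (3 * 81 ^ Δ) := pow_le_pow_right₀ (by linarith) (by omega)
  calc (M : ℝ) ≤ ((m : ℝ) + 1) ^ 11 := hMlt
    _ ≤ ((3202 * G) ^ (3 * 81 ^ Δ)) ^ 11 := pow_le_pow_left₀ (by positivity) hkey 11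
    _ = (3202 * G) ^ (33 * 81 ^ Δ) := by rw [← pow_mul]; congr 1; ring
    _ ≤ _ := pow_le_pow_left₀ (by linarith) hGX _


theorem all_Ckt : S_Ckt :=
  pr_Ckt all_Prod all_SpanBB (pr_JuntaBB all_LocalBB) (pr_Step pr_Phi) pr_RdBound pr_BBsmul
    (pr_BBphi pr_BiDec) pr_Phi

/-- The lower bound for the size of constant depth circuits computing the permanent. -/
theorem main (k : Type) [Field k] [CharZero k] (M Δ s e r : ℕ) (hs : 1 ≤ s)
    (F : Fin s → MvPolynomial (Fin M × Fin M) (LaurentSeries k)) (d : Fin s → ℕ)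
    (R : MvPolynomial (Fin M × Fin M) (PowerSeries k))
    (hF : IsCkt e r F d) (hd : ∀ i, d i ≤ Δ) (i0 : Fin s)
    (hi0 : F i0 = MvPolynomial.map (algebraMap (PowerSeries k) (LaurentSeries k))
      (permP (PowerSeries k) M + C PowerSeries.X * R)) :
    (M : ℝ) ≤ (10 ^ 4 * (Real.log (s + 1) + e + r)) ^ (33 * 81 ^ Δ) :=
  main_final (pr_PermWalk pr_Hess) all_Hard (pr_PWhom pr_BiMul pr_TauLt) pr_BiHom pr_RankLow
    all_BBrank pr_Grow2 all_Ckt pr_CktSubst pr_Transl pr_TransTop pr_RdBound k M Δ s e r hs F d R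
    hF hd i0 hi0

end Pool.Agent.Work.MP_499dc6_lc.CD3
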